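import Pool.Agent.R340.PC.GenVec
import Pool.Agent.R340.PC.Pairs
import Pool.Agent.R340.PC.EvenT
import Pool.Agent.Y227.SS.StableFinal
import Pool.Agent.Y227.RT.Defs

set_option autoImplicit false

/-!
Stable weights of rank two with at most four non-integral differences. This is the argument of
`Pool.Agent.R340.PC.Four` (starting repository, written for operators of order two) for an arbitrary
integral degree `F`; systems have degree `F = 0`.
-/

open Finset

namespace Pool.Agent.K1H96.PC

open Polynomial Pool.Agent.Y227.SS Pool.Agent.Y227.RT Pool.Agent.R340.PC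

/-- `N` is a positive common denominator of the exponents. -/
def CommonDen {m : ℕ} (lam : Fin m → Fin 2 → ℚ) (phi : Fin 2 → ℚ) (N : ℕ) : Prop :=
  0 < N ∧ (∀ j l, ∃ z : ℤ, (N : ℚ) * lam j l = z) ∧ ∀ l, ∃ z : ℤ, (N : ℚ) * phi l = z

/-- Exactly four of the numbers `D x` are not divisible by `q`, and they form two pairs of numbers
that are congruent modulo `q` up to the sign. -/
def TwoPairs {m : ℕ} (q : ℕ) (D : Option (Fin m) → ℤ) : Prop :=
  ∃ x : Fin 4 → Option (Fin m), Function.Injective x ∧ (∀ y, ¬ (q : ℤ) ∣ D y ↔ ∃ i, x i = y) ∧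
    ((q : ℤ) ∣ D (x 0) - D (x 1) ∨ (q : ℤ) ∣ D (x 0) + D (x 1)) ∧
    ((q : ℤ) ∣ D (x 2) - D (x 3) ∨ (q : ℤ) ∣ D (x 2) + D (x 3))

lemma sum_transfer {X : Type*} [Fintype X] [DecidableEq X] (T : Finset X) (eT : T ↪ Fin 4)
    (f : X → ℤ) (f4 : Fin 4 → ℤ) (h1 : ∀ x, x ∉ T → f x = 0)
    (h2 : ∀ i, (∀ x, eT x ≠ i) → f4 i = 0) (h3 : ∀ x : T, f x = f4 (eT x)) :
    ∑ x, f x = ∑ i, f4 i := by
  have e1 : ∑ x, f x = ∑ x ∈ T, f x := by
    symm
    exact sum_subset (subset_univ T) fun x _ hx => h1 x hx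
  have e2 : ∑ x ∈ T, f x = ∑ x : T, f x := (sum_coe_sort T f).symm
  have e3 : ∑ x : T, f x = ∑ x : T, f4 (eT x) := sum_congr rfl fun x _ => h3 x
  have e4 : ∑ x : T, f4 (eT x) = ∑ i ∈ univ.map eT, f4 i := by rw [sum_map]
  have e5 : ∑ i ∈ univ.map eT, f4 i = ∑ i, f4 i := by
    refine sum_subset (subset_univ _) fun i _ hi => h2 i fun x hx => hi ?_
    rw [mem_map]
    exact ⟨x, mem_univ _, hx⟩
  rw [e1, e2, e3, e4, e5]

section main

variable {m N q : ℕ} {F : ℤ} {lam : Fin m → Fin 2 → ℚ} {phi : Fin 2 → ℚ} {D : Option (Fin m) → ℤ}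

/-- If all exponents have an odd common denominator the parity is even. -/
lemma parity_of_odd (hcd : CommonDen lam phi N) (hN : Odd N) (hq : Odd q)
    (hfu : ∑ j, (lam j 0 + lam j 1) = phi 0 + phi 1 + (F : ℤ))
    (hD : ∀ x, (q : ℚ) * theta lam phi x = D x) : Even (∑ x, D x + F) := by
  obtain ⟨-, hl, hp⟩ := hcd
  choose mu hmu using hl
  choose nu hnu using hp
  have h1 : ∀ j, (q : ℤ) * (mu j 0 - mu j 1) = N * D (some j) := by
    intro j
    have h2 : (q : ℚ) * (lam j 0 - lam j 1) = D (some j) := hD (some j)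
    have h3 : ((q * (mu j 0 - mu j 1) : ℤ) : ℚ) = ((N * D (some j) : ℤ) : ℚ) := by
      push_cast
      rw [← hmu, ← hmu, ← h2]
      ring
    exact_mod_cast h3
  have h2 : (q : ℤ) * (nu 0 - nu 1) = N * D none := by
    have h2 : (q : ℚ) * (phi 0 - phi 1) = D none := hD none
    have h3 : ((q * (nu 0 - nu 1) : ℤ) : ℚ) = ((N * D none : ℤ) : ℚ) := by
      push_cast
      rw [← hnu, ← hnu, ← h2]
      ring
    exact_mod_cast h3
  have h3 : ∑ j, (mu j 0 + mu j 1) = nu 0 + nu 1 + N * F := by
    have h4 : ((∑ j, (mu j 0 + mu j 1) : ℤ) : ℚ) = ((nu 0 + nu 1 + N * F : ℤ) : ℚ) := by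
      push_cast
      rw [← hnu, ← hnu]
      have h5 : ∀ j, ((mu j 0 : ℤ) : ℚ) + ((mu j 1 : ℤ) : ℚ) = N * (lam j 0 + lam j 1) := by
        intro j
        rw [← hmu, ← hmu]; ring
      rw [sum_congr rfl fun j _ => h5 j, ← mul_sum, hfu]
      push_cast
      ring
    exact_mod_cast h4
  have h4 : Even (∑ j, ((mu j 0 + mu j 1) - D (some j))) := by
    refine Finset.even_sum _ fun j _ => ?_
    obtain ⟨a, ha⟩ := hN
    obtain ⟨c, hc⟩ := hq
    have h5 := h1 j
    have hNe : (N : ℤ) = 2 * a + 1 := by exact_mod_cast ha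
    have hqe : (q : ℤ) = 2 * c + 1 := by exact_mod_cast hc
    rw [hNe, hqe] at h5
    exact ⟨a * D (some j) - c * (mu j 0 - mu j 1) + mu j 1, by linear_combination h5⟩
  rw [sum_sub_distrib, h3] at h4
  obtain ⟨a, ha⟩ := hN
  obtain ⟨c, hc⟩ := hq
  have hNe : (N : ℤ) = 2 * a + 1 := by exact_mod_cast ha
  have hqe : (q : ℤ) = 2 * c + 1 := by exact_mod_cast hc
  rw [hNe, hqe] at h2
  rw [hNe] at h4
  obtain ⟨z, hz⟩ := h4
  have h2' : 2 * ((c : ℤ) * (nu 0 - nu 1)) + (nu 0 - nu 1) = 2 * (a * D none) + D none := by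
    linear_combination h2
  have hz' : nu 0 + nu 1 + 2 * (a * F) + F - ∑ j, D (some j) = 2 * z := by
    linear_combination hz
  rw [Fintype.sum_option, even_iff_two_dvd]
  generalize (c : ℤ) * (nu 0 - nu 1) = X at h2'
  generalize (a : ℤ) * D none = Y at h2'
  generalize (a : ℤ) * F = Z at hz'
  generalize ∑ j, D (some j) = S at hz' ⊢
  omega

/-- The vectors in the classes of the multiples of the differences. -/
lemma vec (hq : Odd q) (hfu : ∑ j, (lam j 0 + lam j 1) = phi 0 + phi 1 + (F : ℤ))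
    (hD : ∀ x, (q : ℚ) * theta lam phi x = D x) (a : ℤ)
    (hst : StableWeights ℂ (fun j l => (a : ℝ) * lam j l) (fun l => (a : ℝ) * phi l))
    (s : Option (Fin m) → ℤ)
    (hs : ∀ x, (q : ℤ) ∣ s x - a * D x ∨ (q : ℤ) ∣ s x + a * D x)
    (hpar : Odd (∑ x, s x + a * (∑ x, D x + F))) : (q : ℤ) < ∑ x, |s x| := by
  have hq0 : (0 : ℝ) < q := by exact_mod_cast hq.pos
  have hκ : ∀ x, ∃ κ n : ℤ, (κ = 1 ∨ κ = -1) ∧ κ * s x = a * D x + q * n := by
    intro x
    rcases hs x with ⟨n, hn⟩ | ⟨n, hn⟩
    · exact ⟨1, n, Or.inl rfl, by linear_combination hn⟩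
    · exact ⟨-1, -n, Or.inr rfl, by linear_combination -hn⟩
  choose κ n hκ1 hn using hκ
  have hDr : ∀ x, (q : ℝ) * (theta lam phi x : ℝ) = D x := by
    intro x
    have := hD x
    have h2 : (((q : ℚ) * theta lam phi x : ℚ) : ℝ) = ((D x : ℚ) : ℝ) := by rw [this]
    push_cast at h2
    exact h2
  have hv : ∀ x, ((κ x * s x : ℤ) : ℝ) / q = a * (theta lam phi x : ℝ) + n x := by
    intro x
    rw [hn x]
    push_cast
    rw [← hDr x]
    field_simp
  have habs : ∀ x, |((κ x * s x : ℤ) : ℝ) / q| = |(s x : ℝ)| / q := by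
    intro x
    rw [abs_div, abs_of_pos hq0]
    congr 1
    rcases hκ1 x with h | h <;> rw [h] <;> push_cast <;> simp
  have hpar' : Odd (∑ j, n (some j) + n none + a * F) := by
    obtain ⟨c, hc⟩ := hq
    have hqe : (q : ℤ) = 2 * c + 1 := by exact_mod_cast hc
    have e1 : Even (∑ x, (s x + a * D x - n x)) := by
      refine Finset.even_sum _ fun x _ => ?_
      have h1 := hn x
      rw [hqe] at h1
      rcases hκ1 x with h | h <;> rw [h] at h1
      · exact ⟨a * D x + c * n x, by linear_combination h1⟩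
      · exact ⟨-(c * n x) - n x, by linear_combination -h1⟩
    rw [sum_sub_distrib, sum_add_distrib, ← mul_sum] at e1
    rw [Fintype.sum_option n] at e1
    obtain ⟨z1, hz1⟩ := e1
    obtain ⟨z2, hz2⟩ := hpar
    have hz2' : ∑ x, s x + a * ∑ x, D x + a * F = 2 * z2 + 1 := by
      linear_combination hz2
    rw [Int.odd_iff]
    generalize ∑ x, s x = A1 at *
    generalize a * ∑ x, D x = A2 at *
    generalize a * F = A3 at *
    generalize ∑ j, n (some j) = A4 at *
    omega
  have hgen := gen_vector hst (fun j => ((κ (some j) * s (some j) : ℤ) : ℝ) / q)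
    (((κ none * s none : ℤ) : ℝ) / q) (fun j => n (some j)) (n none) (a * F)
    (by
      intro j
      rw [hv (some j)]
      simp only [theta, Option.elim]
      push_cast
      ring) (by
      rw [hv none]
      simp only [theta, Option.elim]
      push_cast
      ring) (by
      have h1 : ((∑ j, (lam j 0 + lam j 1) : ℚ) : ℝ) = ((phi 0 + phi 1 + (F : ℤ) : ℚ) : ℝ) := by
        rw [hfu]
      push_cast at h1 ⊢
      have h2 : ∀ j, (a : ℝ) * (lam j 0 : ℝ) + a * (lam j 1 : ℝ) = a * ((lam j 0 : ℝ) + lam j 1) := by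
        intro j; ring
      rw [sum_congr rfl fun j _ => h2 j, ← mul_sum, h1]
      ring) hpar'
  rw [habs none, sum_congr rfl fun j _ => habs (some j), ← sum_div, ← add_div, lt_div_iff₀ hq0,
    one_mul] at hgen
  have h3 : ((∑ x, |s x| : ℤ) : ℝ) = ∑ j, |(s (some j) : ℝ)| + |(s none : ℝ)| := by
    rw [Fintype.sum_option]
    push_cast
    ring
  rw [← h3] at hgen
  exact_mod_cast hgen

/-- **The main arithmetic statement.** -/
theorem four_main (hcd : CommonDen lam phi N) (hq : Odd q)
    (hqq : q.Prime ∨ ∀ p : ℕ, p.Prime → p ∣ q → 47 ≤ p)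
    (hfu : ∑ j, (lam j 0 + lam j 1) = phi 0 + phi 1 + (F : ℤ))
    (hD : ∀ x, (q : ℚ) * theta lam phi x = D x)
    (h4 : (univ.filter fun x => ¬ (q : ℤ) ∣ D x).card ≤ 4)
    (h19 : q.Prime → q < 19 → Even (∑ x, D x + F))
    (hst : ∀ a : ℤ, IsCoprime a (N : ℤ) →
      StableWeights ℂ (fun j l => (a : ℝ) * lam j l) (fun l => (a : ℝ) * phi l)) :
    TwoPairs q D ∧ Even (∑ x, D x + F) := by
  classical
  have hq0 : 0 < q := hq.pos
  have hqz : (0 : ℤ) < q := by exact_mod_cast hq0
  have hN0 : 0 < N := hcd.1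
  have hvec := fun (a : ℤ) (ha : IsCoprime a (N : ℤ)) => vec hq hfu hD a (hst a ha)
  set T : Finset (Option (Fin m)) := univ.filter fun x => ¬ (q : ℤ) ∣ D x with hT
  have hTm : ∀ x, x ∈ T ↔ ¬ (q : ℤ) ∣ D x := fun x => by simp [hT]
  -- there is a point with a non-integral difference
  have hTne : T.Nonempty := by
    rw [nonempty_iff_ne_empty]
    intro hempty
    have hall : ∀ x, (q : ℤ) ∣ D x := by
      intro x
      by_contra h
      have : x ∈ T := (hTm x).2 h
      rw [hempty] at this
      exact notMem_empty _ this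
    have h1 := hvec 1 isCoprime_one_left
    rcases Int.even_or_odd (∑ x, D x + F) with he | ho
    · have h2 := h1 (fun x => if x = none then (q : ℤ) else 0) (fun x => by
        left
        rw [one_mul]
        refine dvd_sub ?_ (hall x)
        split_ifs
        · exact dvd_rfl
        · exact dvd_zero _) (by
        rw [Finset.sum_ite_eq' Finset.univ none, if_pos (Finset.mem_univ _), one_mul]
        have : Odd (q : ℤ) := by exact_mod_cast hq
        exact this.add_even he)
      have h3 : ∀ x ∈ (univ : Finset (Option (Fin m))), |if x = none then (q : ℤ) else 0| =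
          if x = none then (q : ℤ) else 0 := by
        intro x _
        split_ifs
        · exact abs_of_pos hqz
        · exact abs_zero
      rw [sum_congr rfl h3, Finset.sum_ite_eq' Finset.univ none, if_pos (Finset.mem_univ _)] at h2
      exact lt_irrefl _ h2
    · have h2 := h1 (fun _ => 0) (fun x => by
        left
        rw [one_mul, zero_sub]
        exact (dvd_neg).2 (hall x)) (by
        rw [sum_const_zero, one_mul, zero_add]
        exact ho)
      simp only [abs_zero, sum_const_zero] at h2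
      linarith
  obtain ⟨y0, hy0⟩ := hTne
  have hq1 : 1 < q := by
    rcases Nat.lt_or_ge 1 q with h | h
    · exact h
    · have h1 : q = 1 := by omega
      exfalso
      apply (hTm y0).1 hy0
      rw [h1]
      exact one_dvd _
  have hPR : PrimeOrRough q := hqq.imp id (fun h p hp hpq => (by norm_num : 29 ≤ 47).trans (h p hp hpq))
  -- embedding into four points
  obtain ⟨eT⟩ : Nonempty (T ↪ Fin 4) := by
    apply Function.Embedding.nonempty_of_card_le
    rw [Fintype.card_coe, Fintype.card_fin]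
    exact h4
  let D4 : Fin 4 → ℤ := Function.extend eT (fun x : T => D x) 0
  have hD4 : ∀ x : T, D4 (eT x) = D x := fun x => eT.injective.extend_apply _ _ x
  have hD4' : ∀ i, (∀ x, eT x ≠ i) → D4 i = 0 := by
    intro i hi
    have : ¬ ∃ a, eT a = i := fun ⟨a, ha⟩ => hi a ha
    exact Function.extend_apply' _ _ i this
  -- multipliers
  have hmul : ∀ c : ℤ, IsCoprime c (q : ℤ) → ∃ a : ℤ, IsCoprime a (N : ℤ) ∧
      ∀ x, (q : ℤ) ∣ (a - c) * D x := by
    intro c hc
    set g := Nat.gcd q N with hg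
    have hgN : g ∣ N := Nat.gcd_dvd_right _ _
    have hgq : (g : ℤ) ∣ q := by exact_mod_cast Nat.gcd_dvd_left q N
    have hg0 : 0 < g := Nat.gcd_pos_of_pos_left _ hq0
    have : NeZero g := ⟨hg0.ne'⟩
    have : NeZero N := ⟨hN0.ne'⟩
    obtain ⟨u, hu⟩ := (ZMod.coe_int_isUnit_iff_isCoprime c g).2
      (IsCoprime.of_isCoprime_of_dvd_right hc hgq).symm
    obtain ⟨v, hv⟩ := ZMod.unitsMap_surjective hgN u
    set a : ℤ := ((v : ZMod N).val : ℤ) with ha
    have haN : ((a : ℤ) : ZMod N) = v := by rw [ha]; simp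
    refine ⟨a, ?_, ?_⟩
    · refine ((ZMod.coe_int_isUnit_iff_isCoprime a N).1 ?_).symm
      rw [haN]
      exact v.isUnit
    · have hau : ((a : ℤ) : ZMod g) = ((c : ℤ) : ZMod g) := by
        rw [← hu, ← hv, ZMod.unitsMap_val, ← haN]
        rw [ZMod.cast_intCast hgN]
      have hdvd : (g : ℤ) ∣ a - c := by
        rw [← ZMod.intCast_zmod_eq_zero_iff_dvd, Int.cast_sub, hau, sub_self]
      intro x
      -- `q` divides `g * D x`
      have hNx : (q : ℤ) ∣ N * D x := by
        have h1 : ∃ z : ℤ, (N : ℚ) * theta lam phi x = z := by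
          obtain ⟨-, hl, hp⟩ := hcd
          match x with
          | none =>
            obtain ⟨z0, h0⟩ := hp 0
            obtain ⟨z1, h1⟩ := hp 1
            refine ⟨z0 - z1, ?_⟩
            simp only [theta, Option.elim]
            push_cast
            rw [← h0, ← h1]
            ring
          | some j =>
            obtain ⟨z0, h0⟩ := hl j 0
            obtain ⟨z1, h1⟩ := hl j 1
            refine ⟨z0 - z1, ?_⟩
            simp only [theta, Option.elim]
            push_cast
            rw [← h0, ← h1]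
            ring
        obtain ⟨z, hz⟩ := h1
        refine ⟨z, ?_⟩
        have h2 : ((N * D x : ℤ) : ℚ) = ((q * z : ℤ) : ℚ) := by
          push_cast
          rw [← hD x, ← hz]
          ring
        exact_mod_cast h2
      have hgx : (q : ℤ) ∣ g * D x := by
        have h1 : (g : ℤ) = q * Nat.gcdA q N + N * Nat.gcdB q N := Nat.gcd_eq_gcd_ab q N
        rw [h1]
        have h2 : ((q : ℤ) * Nat.gcdA q N + N * Nat.gcdB q N) * D x =
            q * (Nat.gcdA q N * D x) + (N * D x) * Nat.gcdB q N := by ring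
        rw [h2]
        exact dvd_add (dvd_mul_right _ _) (hNx.mul_right _)
      exact hgx.trans (mul_dvd_mul_right hdvd _)
  -- the transfer of vectors
  have htr : ∀ (c : ℤ), IsCoprime c (q : ℤ) → ∀ s : Fin 4 → ℤ,
      (∀ i, (q : ℤ) ∣ s i - c * D4 i ∨ (q : ℤ) ∣ s i + c * D4 i) →
      (∀ i, (q : ℤ) ∣ D4 i → s i = 0) →
      ∃ a : ℤ, IsCoprime a (N : ℤ) ∧ (Odd (∑ i, s i + a * (∑ x, D x + F)) →
        (q : ℤ) < ∑ i, |s i|) := by
    intro c hc s hs hs0
    obtain ⟨a, haN, hax⟩ := hmul c hc
    refine ⟨a, haN, fun hpar => ?_⟩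
    let s' : Option (Fin m) → ℤ := fun x => if h : x ∈ T then s (eT ⟨x, h⟩) else 0
    have hs'1 : ∀ x, x ∉ T → s' x = 0 := fun x hx => dif_neg hx
    have hs'2 : ∀ x : T, s' x = s (eT x) := fun x => dif_pos x.2
    have hs3 : ∀ i, (∀ x, eT x ≠ i) → s i = 0 := fun i hi => hs0 i (by
      rw [hD4' i hi]; exact dvd_zero _)
    have e1 : ∑ x, s' x = ∑ i, s i := sum_transfer T eT s' s hs'1 hs3 hs'2
    have e2 : ∑ x, |s' x| = ∑ i, |s i| := sum_transfer T eT (fun x => |s' x|) (fun i => |s i|)
      (fun x hx => by simp only [hs'1 x hx, abs_zero]) (fun i hi => by simp only [hs3 i hi, abs_zero])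
      (fun x => by simp only [hs'2 x])
    have := hvec a haN s' (fun x => by
      by_cases hx : x ∈ T
      · have h1 := hs (eT ⟨x, hx⟩)
        rw [hD4 ⟨x, hx⟩, ← hs'2 ⟨x, hx⟩] at h1
        simp only at h1
        rcases h1 with h1 | h1
        · left
          have := dvd_sub h1 (hax x)
          rwa [show s' x - c * D x - (a - c) * D x = s' x - a * D x by ring] at this
        · right
          have := dvd_add h1 (hax x)
          rwa [show s' x + c * D x + (a - c) * D x = s' x + a * D x by ring] at this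
      · left
        rw [hs'1 x hx, zero_sub]
        have : (q : ℤ) ∣ D x := by
          by_contra h
          exact hx ((hTm x).2 h)
        exact (dvd_neg).2 (this.mul_left a)) (by rw [e1]; exact hpar)
    rw [e2] at this
    exact this
  have hne4 : ∃ i, ¬ (q : ℤ) ∣ D4 i := ⟨eT ⟨y0, hy0⟩, by rw [hD4]; exact (hTm y0).1 hy0⟩
  rcases Int.even_or_odd (∑ x, D x + F) with he | ho
  · refine ⟨?_, he⟩
    have hF : Far q D4 := by
      intro c hc s hs hs0 hodd
      obtain ⟨a, -, h⟩ := htr c hc s hs hs0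
      exact h (hodd.add_even (he.mul_left a))
    obtain ⟨hall, π, hp1, hp2⟩ := far_pairs hq1 hq hPR hF hne4
    have hsurj : ∀ i, ∃ x : T, eT x = i := by
      intro i
      by_contra h
      push Not at h
      apply hall i
      rw [hD4' i h]
      exact dvd_zero _
    choose inv hinv using hsurj
    refine ⟨fun i => (inv (π i) : Option (Fin m)), ?_, ?_, ?_, ?_⟩
    · intro i j hij
      have h1 : inv (π i) = inv (π j) := Subtype.ext hij
      have h2 : π i = π j := by rw [← hinv (π i), ← hinv (π j), h1]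
      exact π.injective h2
    · intro y
      rw [← hTm y]
      constructor
      · intro hy
        refine ⟨π.symm (eT ⟨y, hy⟩), ?_⟩
        simp only [Equiv.apply_symm_apply]
        have h1 : inv (eT ⟨y, hy⟩) = ⟨y, hy⟩ := eT.injective (hinv _)
        rw [h1]
      · rintro ⟨i, rfl⟩
        exact (inv (π i)).2
    · have h1 : ∀ i, D (inv (π i)) = D4 (π i) := fun i => by rw [← hD4, hinv]
      simp only [h1]
      exact hp1
    · have h1 : ∀ i, D (inv (π i)) = D4 (π i) := fun i => by rw [← hD4, hinv]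
      simp only [h1]
      exact hp2
  · exfalso
    have hNev : ¬ Odd N := fun h => by
      have := parity_of_odd hcd h hq hfu hD
      exact (Int.not_even_iff_odd.2 ho) this
    have hF : FarE q D4 := by
      intro c hc s hs hs0 hev
      obtain ⟨a, ha, h⟩ := htr c hc s hs hs0
      have haodd : Odd a := by
        rw [← Int.not_even_iff_odd, even_iff_two_dvd]
        intro h2
        rw [Nat.not_odd_iff_even, even_iff_two_dvd] at hNev
        have h3 : (2 : ℤ) ∣ N := by exact_mod_cast hNev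
        have h4 := ha.isUnit_of_dvd' h2 h3
        rw [Int.isUnit_iff] at h4
        omega
      exact h (hev.add_odd (haodd.mul ho))
    refine even_case hq ?_ hF hne4
    rcases hqq with hp | hR
    · left
      refine ⟨hp, ?_⟩
      by_contra h
      push Not at h
      exact (Int.not_even_iff_odd.2 ho) (h19 hp h)
    · exact Or.inr ⟨hq1, hR⟩

end main

end Pool.Agent.K1H96.PC
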