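import Pool.Agent.K1H96.PC.Four

set_option autoImplicit false

/-!
Irreducible systems of rank two with at most four points with non-integral differences of exponents.
-/

open Finset

namespace Pool.Agent.K1H96.PC

open Polynomial Pool.Agent.W432.PC Pool.Agent.Y227.SS Pool.Agent.Y227.RT

universe u

/-- For every common denominator `N` of the exponents there are a residue class modulo `N`, prime to
`N`, and a nonzero `g` in `R` such that the `p`-curvature is nonzero at all closed points of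
`Spec R[1/g]` whose residue characteristic is a large prime `p` in that class. -/
def BadClass {R : Type*} [CommRing R] {n r : ℕ} (α : Fin n → R)
    (A : Fin n → Matrix (Fin r) (Fin r) R) (N : ℕ) : Prop :=
  ∃ (a : ℤ) (g : R), IsCoprime a (N : ℤ) ∧ g ≠ 0 ∧ ∃ P₀ : ℕ, ∀ p : ℕ, p.Prime → P₀ < p →
    (N : ℤ) ∣ a * p + 1 → ∀ (𝔪 : Ideal R) [𝔪.IsMaximal], (p : R) ∈ 𝔪 → g ∉ 𝔪 →
      ¬ PCurvZeroAt α A 𝔪

lemma trace_sum {R : Type u} [CommRing R] [IsDomain R] [CharZero R] {n : ℕ}
    (A : Fin n → Matrix (Fin 2) (Fin 2) R) (lam : Fin n → Fin 2 → ℚ) (phi : Fin 2 → ℚ)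
    (hlam : ∀ j, HasExponents (A j) (lam j)) (hphi : HasExponents (∑ j, A j) phi) :
    ∑ j, (lam j 0 + lam j 1) = phi 0 + phi 1 + ((0 : ℤ) : ℚ) := by
  have : CharZero (FractionRing R) := charZero_fraction
  have h1 := hphi.trace
  rw [Matrix.trace_sum, map_sum, sum_congr rfl fun j _ => (hlam j).trace] at h1
  have h2 : ((∑ j, ∑ l, lam j l : ℚ) : FractionRing R) = ((∑ l, phi l : ℚ) : FractionRing R) := by
    rw [← h1]
    push_cast
    rfl
  have h3 : ∑ j, ∑ l, lam j l = ∑ l, phi l := by exact_mod_cast h2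
  simp only [Fin.sum_univ_two] at h3
  rw [h3]
  simp

theorem systems {R : Type u} [CommRing R] [IsDomain R] [CharZero R] [Algebra.FiniteType ℤ R]
    {n : ℕ} (α : Fin n → R) (hα : ∀ i j, i ≠ j → IsUnit (α i - α j))
    (A : Fin n → Matrix (Fin 2) (Fin 2) R) (lam : Fin n → Fin 2 → ℚ) (phi : Fin 2 → ℚ)
    (hlam : ∀ j, HasExponents (A j) (lam j)) (hphi : HasExponents (∑ j, A j) phi)
    (hirr : AbsIrreducible α A) (q : ℕ) (hq : Odd q)
    (hqq : q.Prime ∨ ∀ p : ℕ, p.Prime → p ∣ q → 47 ≤ p) (D : Option (Fin n) → ℤ)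
    (hD : ∀ x, (q : ℚ) * theta lam phi x = D x)
    (h4 : (Finset.univ.filter fun x => ¬ (q : ℤ) ∣ D x).card ≤ 4)
    (h19 : q.Prime → q < 19 → Even (∑ x, D x)) :
    (TwoPairs q D ∧ Even (∑ x, D x)) ∨
      ((∀ N, CommonDen lam phi N → BadClass α A N) ∧ ¬ CondII α A) := by
  by_cases h : ∀ N, CommonDen lam phi N → BadClass α A N
  · refine Or.inr ⟨h, ?_⟩
    obtain ⟨N, hN⟩ : ∃ N, CommonDen lam phi N := by
      refine ⟨(∏ j, ∏ l, (lam j l).den) * ∏ l, (phi l).den, ?_, ?_, ?_⟩
      · have h1 : ∀ x : ℚ, 0 < x.den := fun x => x.den_pos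
        exact Nat.mul_pos (prod_pos fun j _ => prod_pos fun l _ => h1 _) (prod_pos fun l _ => h1 _)
      · intro j l
        have h1 : (lam j l).den ∣ (∏ j, ∏ l, (lam j l).den) * ∏ l, (phi l).den :=
          ((dvd_prod_of_mem _ (mem_univ l)).trans
            (dvd_prod_of_mem (fun j => ∏ l, (lam j l).den) (mem_univ j))).mul_right _
        obtain ⟨c, hc⟩ := h1
        refine ⟨c * (lam j l).num, ?_⟩
        rw [hc]
        push_cast
        have h2 : (lam j l) * (lam j l).den = (lam j l).num := Rat.mul_den_eq_num _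
        linear_combination (c : ℚ) * h2
      · intro l
        have h1 : (phi l).den ∣ (∏ j, ∏ l, (lam j l).den) * ∏ l, (phi l).den :=
          (dvd_prod_of_mem (fun l => (phi l).den) (mem_univ l)).mul_left _
        obtain ⟨c, hc⟩ := h1
        refine ⟨c * (phi l).num, ?_⟩
        rw [hc]
        push_cast
        have h2 : (phi l) * (phi l).den = (phi l).num := Rat.mul_den_eq_num _
        linear_combination (c : ℚ) * h2
    obtain ⟨a, g, ha, hg, P₀, hP⟩ := h N hN
    exact not_condII_of α A N hN.1 a ha ⟨g, hg, P₀, hP⟩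
  · left
    push Not at h
    obtain ⟨N, hN, hbad⟩ := h
    have hfour := four_main (F := 0) hN hq hqq (trace_sum A lam phi hlam hphi) hD h4
      (fun h1 h2 => by rw [add_zero]; exact h19 h1 h2) fun a ha => by
        by_contra hst
        obtain ⟨g, hg, P₀, hP⟩ := (final α hα A lam phi hlam hphi N hN.1 hN.2.1 hN.2.2 a).2.1
          hirr hst
        exact hbad ⟨a, g, ha, hg, P₀, hP⟩
    rwa [add_zero] at hfour

end Pool.Agent.K1H96.PC
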